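import Pool.Agent.U422.DenseThree

/-!
# Ruzsa–Szemerédi graphs closed under weak near unanimity operations

Let `G` be a graph on `n` vertices whose edge set is the disjoint union of `t` induced matchings
`M i` of size `r`. We consider the relation of the triples `(u, v, i)` such that `{u, v}` is in `M i`
(it is enough to have one of the two orientations of every edge). A finite relation is *WNU-closed*
if it is closed under the componentwise application of **some** (arbitrary) idempotent weak near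
unanimity operations of one arity `k ≥ 2` on the vertices (first coordinate), on the vertices (second
coordinate) and on the indices of the matchings: `t(x,…,x,y,x,…,x)` does not depend on the position
of `y`. Examples are all commutative idempotent binary operations, majority operations and
`x + y + z` in groups of exponent two. By a theorem of Maróti and McKenzie such operations exist as
soon as the relation is closed under any idempotent operations satisfying Taylor identities.

**Theorem.** If the relation is the union of `L` WNU-closed relations then `r² t ≤ L² n²`. In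
particular if `r ≥ c n` and `t ≥ n^ε` then `L ≥ c n^(ε/2)`; for bounded `L` and `r ≥ c n` the number
`t` of matchings is bounded by `(L / c)²`. So Q1 has a negative answer in this class.

Idea of the proof. Since the matchings are induced, a WNU-closed part `E` of the relation has no
nontrivial triangles `(x, y, z')`, `(x, y', z)`, `(x', y, z)`. By the theorem on the number of
triangles in WNU-closed relations `|E|³ ≤ |E| n² t`, and we add up.
-/

set_option autoImplicit false

namespace Pool.Agent.Results.MP_c44c3f_co.ClosedMatchings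

open Finset Pool.Agent.U422.Dense

/-- **Theorem.** Let the edge set of the graph `G` on `n` vertices be the disjoint union of `t`
induced matchings `M i` of size `r`. Let `B l`, `l < L`, be WNU-closed sets of triples `(u, v, i)` with
`{u, v} ∈ M i` such that every edge of every `M i` comes from such a triple. Then `r² t ≤ L² n²`.
If `c n ≤ r` and `n^ε ≤ t`, `c, ε > 0`, then `c² n^ε ≤ L²` for `n ≥ 1`. -/
theorem result :
    (∀ (V : Type) [Fintype V] (G : SimpleGraph V) (t r L : ℕ) (M : Fin t → Finset (Sym2 V))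
      (B : Fin L → Finset (V × V × Fin t)), (∀ i, #(M i) = r) →
      (∀ i j, i ≠ j → Disjoint (M i) (M j)) → (∀ e, e ∈ G.edgeSet ↔ ∃ i, e ∈ M i) →
      (∀ i, ∀ e ∈ M i, ∀ f ∈ M i, e ≠ f → ∀ x ∈ e, ∀ y ∈ f, x ≠ y ∧ ¬ G.Adj x y) →
      (∀ l, WNU3 (B l)) → (∀ l, ∀ z ∈ B l, s(z.1, z.2.1) ∈ M z.2.2) →
      (∀ i, ∀ e ∈ M i, ∃ l, ∃ z ∈ B l, s(z.1, z.2.1) = e ∧ z.2.2 = i) →
      r ^ 2 * t ≤ L ^ 2 * Fintype.card V ^ 2) ∧
    (∀ (c ε : ℝ), 0 < c → 0 < ε → ∀ (V : Type) [Fintype V] [Nonempty V] (G : SimpleGraph V)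
      (t r L : ℕ) (M : Fin t → Finset (Sym2 V)) (B : Fin L → Finset (V × V × Fin t)),
      (∀ i, #(M i) = r) →
      (∀ i j, i ≠ j → Disjoint (M i) (M j)) → (∀ e, e ∈ G.edgeSet ↔ ∃ i, e ∈ M i) →
      (∀ i, ∀ e ∈ M i, ∀ f ∈ M i, e ≠ f → ∀ x ∈ e, ∀ y ∈ f, x ≠ y ∧ ¬ G.Adj x y) →
      (∀ l, WNU3 (B l)) → (∀ l, ∀ z ∈ B l, s(z.1, z.2.1) ∈ M z.2.2) →
      (∀ i, ∀ e ∈ M i, ∃ l, ∃ z ∈ B l, s(z.1, z.2.1) = e ∧ z.2.2 = i) →
      c * (Fintype.card V : ℝ) ≤ r → (Fintype.card V : ℝ) ^ ε ≤ t →
      c ^ 2 * (Fintype.card V : ℝ) ^ ε ≤ (L : ℝ) ^ 2) := by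
  have main : ∀ (V : Type) [Fintype V] (G : SimpleGraph V) (t r L : ℕ)
      (M : Fin t → Finset (Sym2 V))
      (B : Fin L → Finset (V × V × Fin t)), (∀ i, #(M i) = r) →
      (∀ i j, i ≠ j → Disjoint (M i) (M j)) → (∀ e, e ∈ G.edgeSet ↔ ∃ i, e ∈ M i) →
      (∀ i, ∀ e ∈ M i, ∀ f ∈ M i, e ≠ f → ∀ x ∈ e, ∀ y ∈ f, x ≠ y ∧ ¬ G.Adj x y) →
      (∀ l, WNU3 (B l)) → (∀ l, ∀ z ∈ B l, s(z.1, z.2.1) ∈ M z.2.2) →
      (∀ i, ∀ e ∈ M i, ∃ l, ∃ z ∈ B l, s(z.1, z.2.1) = e ∧ z.2.2 = i) →
      r ^ 2 * t ≤ L ^ 2 * Fintype.card V ^ 2 := by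
    classical
    intro V _ G t r L M B hr hdis hedge hind hw hB hcov
    have hadj : ∀ i x y, s(x, y) ∈ M i → G.Adj x y := by
      intro i x y h
      have := (hedge s(x, y)).2 ⟨i, h⟩
      rwa [SimpleGraph.mem_edgeSet] at this
    have huniq : ∀ i j e, e ∈ M i → e ∈ M j → i = j := by
      intro i j e h1 h2
      by_contra hne
      exact disjoint_left.1 (hdis i j hne) h1 h2
    have hsame : ∀ i, ∀ e ∈ M i, ∀ f ∈ M i, ∀ x, x ∈ e → x ∈ f → e = f := by
      intro i e he f hf x hx hx'
      by_contra hne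
      exact (hind i e he f hf hne x hx x hx').1 rfl
    have hl : ∀ l, #(B l) ^ 2 ≤ Fintype.card V ^ 2 * t := by
      intro l
      have h := three_bound (B l) (hw l) ?_ ?_ ?_ ?_
      · rw [Fintype.card_fin] at h
        refine h.trans (le_of_eq ?_)
        ring
      · rintro ⟨x, y, i⟩ hx ⟨x', y', j⟩ hy h1 h2
        have e1 : x = x' := h1
        have e2 : y = y' := h2
        subst e1 e2
        have e3 : i = j := huniq i j s(x, y) (hB l _ hx) (hB l _ hy)
        rw [e3]
      · rintro ⟨x, y, i⟩ hx ⟨x', y', j⟩ hy h1 h2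
        have e1 : x = x' := h1
        have e2 : i = j := h2
        subst e1 e2
        have e3 := hsame i s(x, y) (hB l _ hx) s(x, y') (hB l _ hy) x (Sym2.mem_mk_left _ _)
          (Sym2.mem_mk_left _ _)
        rw [Sym2.congr_right] at e3
        rw [e3]
      · rintro ⟨x, y, i⟩ hx ⟨x', y', j⟩ hy h1 h2
        have e1 : y = y' := h1
        have e2 : i = j := h2
        subst e1 e2
        have e3 := hsame i s(x, y) (hB l _ hx) s(x', y) (hB l _ hy) y (Sym2.mem_mk_right _ _)
          (Sym2.mem_mk_right _ _)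
        rw [Sym2.congr_left] at e3
        rw [e3]
      · rintro ⟨x, y, i⟩ hx ⟨x₁, y₁, j⟩ hy ⟨x₂, y₂, m⟩ hz h1 h2 h3
        have e1 : x = x₁ := h1
        have e2 : y = y₂ := h2
        have e3 : j = m := h3
        subst e1 e2 e3
        have g1 : s(x, y) ∈ M i := hB l _ hx
        have g2 : s(x, y₁) ∈ M j := hB l _ hy
        have g3 : s(x₂, y) ∈ M j := hB l _ hz
        have g4 := hadj i x y g1
        have g5 : s(x, y₁) = s(x₂, y) := by
          by_contra hne
          exact (hind j _ g2 _ g3 hne x (Sym2.mem_mk_left _ _) y (Sym2.mem_mk_right _ _)).2 g4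
        rw [Sym2.eq_iff] at g5
        rcases g5 with ⟨-, g6⟩ | ⟨g6, -⟩
        · subst g6
          have e4 : i = j := huniq i j s(x, y₁) g1 g2
          rw [e4]
        · exact absurd g4 (by rw [g6]; exact G.loopless.irrefl _)
    have hsum : r * t ≤ ∑ l, #(B l) := by
      have h1 : r * t = #((univ : Finset (Fin t)).sigma fun i => M i) := by
        rw [card_sigma, sum_congr rfl fun i _ => hr i, sum_const, card_univ, Fintype.card_fin,
          smul_eq_mul, mul_comm]
      have h2 : ((univ : Finset (Fin t)).sigma fun i => M i) ⊆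
          (univ.biUnion B).image fun z => (⟨z.2.2, s(z.1, z.2.1)⟩ : Σ _ : Fin t, Sym2 V) := by
        rintro ⟨i, e⟩ h
        have he := (mem_sigma.1 h).2
        obtain ⟨l, z, hz, hz1, hz2⟩ := hcov i e he
        refine mem_image.2 ⟨z, mem_biUnion.2 ⟨l, mem_univ _, hz⟩, ?_⟩
        rw [hz1, hz2]
      rw [h1]
      exact (card_le_card h2).trans (card_image_le.trans card_biUnion_le)
    rcases Nat.eq_zero_or_pos t with h0 | h0
    · rw [h0]
      simp
    rcases Nat.eq_zero_or_pos L with hL | hL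
    · subst hL
      have h1 : r * t ≤ 0 := by simpa using hsum
      have h2 : r = 0 := by
        rcases Nat.mul_eq_zero.1 (Nat.le_zero.1 h1) with h | h
        · exact h
        · omega
      rw [h2]
      simp
    obtain ⟨l₀, -, hl₀⟩ := exists_max_image (univ : Finset (Fin L)) (fun l => #(B l))
      ⟨⟨0, hL⟩, mem_univ _⟩
    have h1 : r * t ≤ L * #(B l₀) := by
      refine hsum.trans ((sum_le_card_nsmul _ _ _ fun l hl => hl₀ l hl).trans ?_)
      rw [card_univ, Fintype.card_fin, smul_eq_mul]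
    refine Nat.le_of_mul_le_mul_left ?_ h0
    calc t * (r ^ 2 * t) = (r * t) ^ 2 := by ring
      _ ≤ (L * #(B l₀)) ^ 2 := Nat.pow_le_pow_left h1 2
      _ = L ^ 2 * #(B l₀) ^ 2 := mul_pow _ _ _
      _ ≤ L ^ 2 * (Fintype.card V ^ 2 * t) := Nat.mul_le_mul_left _ (hl l₀)
      _ = t * (L ^ 2 * Fintype.card V ^ 2) := by ring
  refine ⟨fun V _ => main V, ?_⟩
  intro c ε hc hε V _ _ G t r L M B hr hdis hedge hind hw hB hcov hcr hεt
  have h1 := main V G t r L M B hr hdis hedge hind hw hB hcov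
  have h2 : (r : ℝ) ^ 2 * t ≤ (L : ℝ) ^ 2 * (Fintype.card V : ℝ) ^ 2 := by exact_mod_cast h1
  have hn : (0 : ℝ) < Fintype.card V := by exact_mod_cast Fintype.card_pos
  have h3 : (c * (Fintype.card V : ℝ)) ^ 2 * (Fintype.card V : ℝ) ^ ε ≤ (r : ℝ) ^ 2 * t :=
    mul_le_mul (pow_le_pow_left₀ (by positivity) hcr 2) hεt (by positivity) (by positivity)
  have h4 : (Fintype.card V : ℝ) ^ 2 * (c ^ 2 * (Fintype.card V : ℝ) ^ ε) ≤
      (Fintype.card V : ℝ) ^ 2 * (L : ℝ) ^ 2 := by
    calc (Fintype.card V : ℝ) ^ 2 * (c ^ 2 * (Fintype.card V : ℝ) ^ ε) =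
        (c * (Fintype.card V : ℝ)) ^ 2 * (Fintype.card V : ℝ) ^ ε := by ring
      _ ≤ (L : ℝ) ^ 2 * (Fintype.card V : ℝ) ^ 2 := h3.trans h2
      _ = (Fintype.card V : ℝ) ^ 2 * (L : ℝ) ^ 2 := by ring
  exact le_of_mul_le_mul_left h4 (by positivity)

end Pool.Agent.Results.MP_c44c3f_co.ClosedMatchings
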